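import Pool.Agent.Y561.PB.Main
import Mathlib.Tactic.FinCases

set_option autoImplicit false

open Cardinal Order Filter

universe u

namespace Pool.Agent.Y561.PB

variable {κ : Cardinal.{u}}

theorem HasUltrafilter.isRegular (hκ : ℵ₀ ≤ κ) (h : HasUltrafilter κ) :
    Cardinal.IsRegular κ := by
  obtain ⟨A, U, hA, hI, hU⟩ := h
  exact regular U hU hκ hA

theorem canonical' (hκ : ℵ₀ ≤ κ) (h : HasUltrafilter κ) {X Y Z D : Type u}
    (hX : κ ≤ #X) (hY : κ ≤ #Y) (hZ : κ < #Z) (hD : #D < κ) (c : X → Y → Z → D) :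
    ∃ (x : κ.ord.ToType → X) (y : κ.ord.ToType → Y) (z : κ.ord.ToType → Z) (i j : D),
      Function.Injective x ∧ Function.Injective y ∧ Function.Injective z ∧
      ∀ s t r, (s ≤ t → c (x s) (y t) (z r) = i) ∧ (t < s → c (x s) (y t) (z r) = j) := by
  obtain ⟨A, U, hA, hI, hU⟩ := h
  rw [← hA] at hX hY
  obtain ⟨eX⟩ := hX
  obtain ⟨eY⟩ := hY
  obtain ⟨x, y, z, i, j, hx, hy, hz, hc⟩ :=
    canonical hκ hA U hU hZ hD (fun a b z => c (eX a) (eY b) z)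
  exact ⟨fun w => eX (x w), fun w => eY (y w), z, i, j, eX.injective.comp hx,
    eY.injective.comp hy, hz, hc⟩

/-- A monochromatic box whose first side has size `α < κ`. -/
theorem small_first (hκ : ℵ₀ ≤ κ) (h : HasUltrafilter κ) {X Y Z D : Type u}
    (hX : κ ≤ #X) (hY : κ ≤ #Y) (hZ : κ < #Z) (hD : #D < κ) (c : X → Y → Z → D)
    {α β γ : Cardinal.{u}} (hα : α < κ) (hβ : β ≤ κ) (hγ : γ ≤ κ) :
    ∃ (k : D) (H₁ : Set X) (H₂ : Set Y) (H₃ : Set Z), #H₁ = α ∧ #H₂ = β ∧ #H₃ = γ ∧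
      ∀ x ∈ H₁, ∀ y ∈ H₂, ∀ z ∈ H₃, c x y z = k := by
  have hreg := h.isRegular hκ
  obtain ⟨x, y, z, i, j, hx, hy, hz, hc⟩ := canonical' hκ h hX hY hZ hD c
  have hW : #κ.ord.ToType = κ := Cardinal.mk_ord_toType _
  obtain ⟨S, hS⟩ : ∃ S : Set κ.ord.ToType, #S = α :=
    Cardinal.le_mk_iff_exists_set.1 (by rw [hW]; exact hα.le)
  let T : Set κ.ord.ToType := {t | ∀ s ∈ S, s ≤ t}
  have hT : κ ≤ #T := by
    by_contra hlt
    push Not at hlt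
    have h1 : (Set.univ : Set κ.ord.ToType) ⊆ T ∪ ⋃ s : S, Set.Iio (s : κ.ord.ToType) := by
      intro t _
      by_cases ht : t ∈ T
      · exact Or.inl ht
      · right
        have : ¬ ∀ s ∈ S, s ≤ t := ht
        push Not at this
        obtain ⟨s, hs, hts⟩ := this
        exact Set.mem_iUnion.2 ⟨⟨s, hs⟩, hts⟩
    have h2 : #(⋃ s : S, Set.Iio (s : κ.ord.ToType)) < κ := by
      rw [card_iUnion_lt_iff_forall_of_isRegular hreg (hS ▸ hα)]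
      exact fun s => Cardinal.mk_Iio_toType_ord_lt _
    have h3 : #κ.ord.ToType < κ := by
      rw [← mk_univ]
      exact ((mk_le_mk_of_subset h1).trans (mk_union_le _ _)).trans_lt
        (Cardinal.add_lt_of_lt hκ hlt h2)
    exact absurd hW h3.ne
  obtain ⟨T', hT', hT'β⟩ := Cardinal.le_mk_iff_exists_subset.1 (hβ.trans hT)
  obtain ⟨R, hR⟩ : ∃ R : Set κ.ord.ToType, #R = γ :=
    Cardinal.le_mk_iff_exists_set.1 (by rw [hW]; exact hγ)
  refine ⟨i, x '' S, y '' T', z '' R, ?_, ?_, ?_, ?_⟩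
  · rw [Cardinal.mk_image_eq hx, hS]
  · rw [Cardinal.mk_image_eq hy, hT'β]
  · rw [Cardinal.mk_image_eq hz, hR]
  · rintro _ ⟨s, hs, rfl⟩ _ ⟨t, ht, rfl⟩ _ ⟨r, _, rfl⟩
    exact (hc s t r).1 (hT' ht s hs)

/-- The six order types of a triple. -/
noncomputable def orderType {W : Type*} [LinearOrder W] (x y z : W) : Fin 6 :=
  if x < y then (if y < z then 0 else if x < z then 1 else 2)
  else (if x < z then 3 else if y < z then 4 else 5)

/-- On `κ × κ × κ` six colours cannot be avoided. -/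
theorem six (hκ : ℵ₀ ≤ κ) (X Y Z : Type u) (hX : #X = κ) (hY : #Y = κ) (hZ : #Z = κ) :
    ∃ c : X × Y × Z → Fin 6, ∀ (H₁ : Set X) (H₂ : Set Y) (H₃ : Set Z),
      #H₁ = κ → #H₂ = κ → #H₃ = κ →
      ∀ k, ∃ x ∈ H₁, ∃ y ∈ H₂, ∃ z ∈ H₃, c (x, y, z) = k := by
  have hW : #κ.ord.ToType = κ := Cardinal.mk_ord_toType _
  obtain ⟨eX⟩ := Cardinal.eq.1 (hX.trans hW.symm)
  obtain ⟨eY⟩ := Cardinal.eq.1 (hY.trans hW.symm)
  obtain ⟨eZ⟩ := Cardinal.eq.1 (hZ.trans hW.symm)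
  refine ⟨fun p => orderType (eX p.1) (eY p.2.1) (eZ p.2.2), ?_⟩
  have key : ∀ (X : Type u) (e : X ≃ κ.ord.ToType) (H : Set X), #H = κ →
      ∀ w, ∃ x ∈ H, w < e x := by
    intro X e H hH w
    by_contra hcon
    push Not at hcon
    have h1 : e '' H ⊆ Set.Iio w ∪ {w} := by
      rintro _ ⟨x, hx, rfl⟩
      rcases lt_or_eq_of_le (hcon x hx) with h | h
      · exact Or.inl h
      · exact Or.inr h
    have h2 : #H < κ := by
      rw [← Cardinal.mk_image_eq e.injective]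
      refine ((mk_le_mk_of_subset h1).trans (mk_union_le _ _)).trans_lt ?_
      rw [mk_singleton]
      exact Cardinal.add_lt_of_lt hκ (Cardinal.mk_Iio_toType_ord_lt w)
        (one_lt_aleph0.trans_le hκ)
    exact absurd hH h2.ne
  intro H₁ H₂ H₃ h1 h2 h3 k
  have kX := key X eX H₁ h1
  have kY := key Y eY H₂ h2
  have kZ := key Z eZ H₃ h3
  have w0 : κ.ord.ToType := Classical.choice (by
    rw [← mk_ne_zero_iff, hW]
    exact (aleph0_pos.trans_le hκ).ne')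
  fin_cases k
  · obtain ⟨x, hx, _⟩ := kX w0
    obtain ⟨y, hy, hxy⟩ := kY (eX x)
    obtain ⟨z, hz, hyz⟩ := kZ (eY y)
    exact ⟨x, hx, y, hy, z, hz, by simp [orderType, hxy, hyz]⟩
  · obtain ⟨x, hx, _⟩ := kX w0
    obtain ⟨z, hz, hxz⟩ := kZ (eX x)
    obtain ⟨y, hy, hzy⟩ := kY (eZ z)
    exact ⟨x, hx, y, hy, z, hz, by
      simp [orderType, hxz.trans hzy, not_lt.2 hzy.le, hxz]⟩
  · obtain ⟨z, hz, _⟩ := kZ w0
    obtain ⟨x, hx, hzx⟩ := kX (eZ z)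
    obtain ⟨y, hy, hxy⟩ := kY (eX x)
    exact ⟨x, hx, y, hy, z, hz, by
      simp [orderType, hxy, not_lt.2 (hzx.trans hxy).le, not_lt.2 hzx.le]⟩
  · obtain ⟨y, hy, _⟩ := kY w0
    obtain ⟨x, hx, hyx⟩ := kX (eY y)
    obtain ⟨z, hz, hxz⟩ := kZ (eX x)
    exact ⟨x, hx, y, hy, z, hz, by
      simp [orderType, not_lt.2 hyx.le, hxz]⟩
  · obtain ⟨y, hy, _⟩ := kY w0
    obtain ⟨z, hz, hyz⟩ := kZ (eY y)
    obtain ⟨x, hx, hzx⟩ := kX (eZ z)
    exact ⟨x, hx, y, hy, z, hz, by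
      simp [orderType, not_lt.2 (hyz.trans hzx).le, not_lt.2 hzx.le, hyz]⟩
  · obtain ⟨z, hz, _⟩ := kZ w0
    obtain ⟨y, hy, hzy⟩ := kY (eZ z)
    obtain ⟨x, hx, hyx⟩ := kX (eY y)
    exact ⟨x, hx, y, hy, z, hz, by
      simp [orderType, not_lt.2 hyx.le, not_lt.2 (hzy.trans hyx).le, not_lt.2 hzy.le]⟩

end Pool.Agent.Y561.PB
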