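import Mathlib.Order.Filter.Ultrafilter.Basic
import Mathlib.Order.Filter.CardinalInter
import Mathlib.SetTheory.Cardinal.Regular
import Mathlib.SetTheory.Cardinal.Pigeonhole

set_option autoImplicit false

open Cardinal Order Filter

universe u

namespace Pool.Agent.Y561.PB

/-- `κ` is `ℵ₀` or a measurable cardinal: there is a nonprincipal ultrafilter on a set of
size `κ` which is closed under intersections of fewer than `κ` of its members. -/
def HasUltrafilter (κ : Cardinal.{u}) : Prop :=
  ∃ (A : Type u) (U : Ultrafilter A), #A = κ ∧ CardinalInterFilter (U : Filter A) κ ∧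
    (U : Filter A) ≤ cofinite

theorem hasUltrafilter_aleph0 : HasUltrafilter (ℵ₀ : Cardinal.{u}) :=
  ⟨ULift.{u} ℕ, hyperfilter (ULift.{u} ℕ), by simp, cardinalInterFilter_aleph0 _,
    hyperfilter_le_cofinite⟩

section

variable {κ : Cardinal.{u}} {A : Type u} (U : Ultrafilter A)

theorem decide_colour [CardinalInterFilter (U : Filter A) κ] {D : Type u} (hD : #D < κ)
    (g : A → D) : ∃ d, ∀ᶠ a in (U : Filter A), g a = d := by
  by_contra hcon
  push Not at hcon
  have h1 : ∀ d, ∀ᶠ a in (U : Filter A), g a ≠ d := fun d => hcon d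
  have h2 := (eventually_cardinal_forall hD).2 h1
  obtain ⟨a, ha⟩ := h2.exists
  exact ha (g a) rfl

theorem not_small_mem [CardinalInterFilter (U : Filter A) κ] (hU : (U : Filter A) ≤ cofinite)
    {s : Set A} (hs : #s < κ) : s ∉ U := by
  intro hmem
  have h1 : ∀ a : s, ∀ᶠ x : A in (U : Filter A), x ≠ (a : A) := by
    intro a
    exact hU (by
      rw [mem_cofinite]
      exact (Set.finite_singleton (a : A)).subset (fun x hx => by
        have : ¬ (x ≠ (a : A)) := hx
        push Not at this
        exact this))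
  have h2 := (eventually_cardinal_forall hs).2 h1
  obtain ⟨x, hx1, hx2⟩ := (h2.and hmem).exists
  exact hx1 ⟨x, hx2⟩ rfl

theorem strongLimit [CardinalInterFilter (U : Filter A) κ] (hU : (U : Filter A) ≤ cofinite)
    (hκ : ℵ₀ ≤ κ) (hA : #A = κ) : IsStrongLimit κ := by
  refine ⟨(aleph0_pos.trans_le hκ).ne', ?_⟩
  intro x hx
  by_contra hcon
  push Not at hcon
  induction x using Cardinal.inductionOn with
  | _ B =>
  have h1 : #A ≤ #(Set B) := by
    rw [hA, mk_set]
    exact hcon
  obtain ⟨e⟩ := h1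
  have h2 : ∀ b : B, ∃ p : Prop, ∀ᶠ a in (U : Filter A), (b ∈ e a) = p := by
    intro b
    by_cases h : ∀ᶠ a in (U : Filter A), b ∈ e a
    · exact ⟨True, h.mono (fun a ha => by simpa using ha)⟩
    · rw [← Ultrafilter.eventually_not] at h
      exact ⟨False, h.mono (fun a ha => by simpa using ha)⟩
  choose p hp using h2
  have h3 := (eventually_cardinal_forall hx).2 hp
  have h4 : #{a | ∀ b, (b ∈ e a) = p b} < κ := by
    have : {a | ∀ b, (b ∈ e a) = p b}.Subsingleton := by
      intro a ha a' ha'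
      apply e.injective
      ext b
      have := (ha b).trans (ha' b).symm
      exact iff_of_eq this
    exact (Cardinal.mk_le_one_iff_set_subsingleton.2 this).trans_lt
      (one_lt_aleph0.trans_le hκ)
  exact not_small_mem U hU h4 h3

theorem regular [CardinalInterFilter (U : Filter A) κ] (hU : (U : Filter A) ≤ cofinite)
    (hκ : ℵ₀ ≤ κ) (hA : #A = κ) : Cardinal.IsRegular κ := by
  refine ⟨hκ, ?_⟩
  by_contra hcon
  push Not at hcon
  -- a cofinal set of size < κ in κ.ord.ToType
  rw [← Ordinal.cof_toType] at hcon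
  obtain ⟨s, hs, hs'⟩ := Order.cof_eq κ.ord.ToType
  rw [← hs'] at hcon
  have hAW : #A = #κ.ord.ToType := by rw [hA, Cardinal.mk_ord_toType]
  obtain ⟨φ⟩ := Cardinal.eq.1 hAW
  have hsm : ∀ w : κ.ord.ToType, #(Set.Iic w) < κ := by
    intro w
    have h3 : Set.Iic w = Set.Iio w ∪ {w} := by
      rw [Set.union_comm]
      exact Set.Iio_insert.symm
    rw [h3]
    refine lt_of_le_of_lt (Cardinal.mk_union_le _ _) ?_
    rw [Cardinal.mk_singleton]
    exact Cardinal.add_lt_of_lt hκ (Cardinal.mk_Iio_toType_ord_lt w)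
      (one_lt_aleph0.trans_le hκ)
  have h1 : ∀ w : s, ∀ᶠ a in (U : Filter A), ¬ (φ a ≤ w) := by
    intro w
    have h : {a | φ a ≤ (w : κ.ord.ToType)} ∉ U := by
      apply not_small_mem U hU (κ := κ)
      have : {a | φ a ≤ (w : κ.ord.ToType)} = φ ⁻¹' (Set.Iic (w : κ.ord.ToType)) := rfl
      rw [this, Cardinal.mk_preimage_equiv]
      exact hsm w
    exact Ultrafilter.eventually_not.2 h
  have h2 := (eventually_cardinal_forall hcon).2 h1
  obtain ⟨a, ha⟩ := h2.exists
  obtain ⟨w, hw, hle⟩ := hs (φ a)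
  exact ha ⟨w, hw⟩ hle

end

end Pool.Agent.Y561.PB
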