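import Pool.Agent.Y561.PB.Basic

set_option autoImplicit false

open Cardinal Order Filter

universe u

namespace Pool.Agent.Y561.PB

/-- Transfinite construction of a sequence, with a condition at `w` which only depends on the
values at points `≤ w`. -/
theorem exists_seq {W T : Type*} [LinearOrder W] [WellFoundedLT W] [Nonempty T]
    (J : (W → T) → W → Prop)
    (hloc : ∀ g g' w, (∀ v, v ≤ w → g v = g' v) → J g w → J g' w)
    (H : ∀ w g, (∀ v, v < w → J g v) → ∃ t, J (Function.update g w t) w) :
    ∃ f, ∀ w, J f w := by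
  classical
  let ext : (w : W) → ((v : W) → v < w → T) → W → T := fun w prev v =>
    if h : v < w then prev v h else Classical.arbitrary T
  let F : (w : W) → ((v : W) → v < w → T) → T := fun w prev =>
    if h : ∃ t, J (Function.update (ext w prev) w t) w then h.choose else Classical.arbitrary T
  let f : W → T := (wellFounded_lt (α := W)).fix F
  have hf : ∀ w, f w = F w (fun v _ => f v) := fun w => WellFounded.fix_eq _ _ _
  refine ⟨f, ?_⟩
  intro w
  induction w using WellFoundedLT.induction with
  | ind w ih =>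
    have h1 : ∃ t, J (Function.update (ext w (fun v _ => f v)) w t) w := by
      apply H
      intro v hv
      refine hloc f _ v ?_ (ih v hv)
      intro u hu
      simp only [ext, dif_pos (hu.trans_lt hv)]
    have h2 : f w = h1.choose := by
      rw [hf w]
      simp only [F, dif_pos h1]
    have h3 := h1.choose_spec
    rw [← h2] at h3
    refine hloc _ f w ?_ h3
    intro v hv
    rcases lt_or_eq_of_le hv with hv | hv
    · rw [Function.update_of_ne hv.ne]
      simp only [ext, dif_pos hv]
    · rw [hv, Function.update_self]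

/-- Among more than `κ` functions on a set of size `κ` there is one such that each of its
restrictions to fewer than `κ` points is shared by more than `κ` of the functions. -/
theorem exists_nonbad {κ : Cardinal.{u}} (hκ : ℵ₀ ≤ κ) (hreg : Cardinal.IsRegular κ)
    (hsl : IsStrongLimit κ) {Z Q E : Type u} (hQ : #(Q × E) = κ) (π : Z → Q → E)
    (Γ : Set Z) (hΓ : κ < #Γ) :
    ∃ g ∈ Γ, ∀ s : Set Q, #s < κ → κ < #{z | z ∈ Γ ∧ ∀ q ∈ s, π z q = π g q} := by
  classical
  let P : Type u := {p : Set (Q × E) // #p < κ}
  have hP : #P = κ := by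
    have h1 := mk_subset_mk_lt_cof (α := Q × E) (by rw [hQ]; exact hsl.isStrongPrelimit)
    rw [hQ] at h1
    rw [hreg.cof_ord] at h1
    exact h1
  let G : P → Set Z := fun p => {z | z ∈ Γ ∧ ∀ e ∈ p.1, π z e.1 = e.2}
  let B : Set Z := ⋃ p : {p : P // #(G p) ≤ κ}, G p.1
  have hB : #B ≤ κ := by
    refine (mk_iUnion_le _).trans ?_
    have h1 : #{p : P // #(G p) ≤ κ} ≤ κ := (mk_subtype_le _).trans hP.le
    refine (mul_le_mul' h1 (ciSup_le' (fun p => p.2))).trans ?_
    exact (mul_eq_self hκ).le
  have h2 : ∃ g ∈ Γ, g ∉ B := by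
    by_contra hcon
    push Not at hcon
    exact absurd ((mk_le_mk_of_subset hcon).trans hB) (not_le.2 hΓ)
  obtain ⟨g, hg, hgB⟩ := h2
  refine ⟨g, hg, ?_⟩
  intro s hs
  by_contra hle
  push Not at hle
  apply hgB
  let p : P := ⟨(fun q => (q, π g q)) '' s, mk_image_le.trans_lt hs⟩
  have hGp : G p = {z | z ∈ Γ ∧ ∀ q ∈ s, π z q = π g q} := by
    ext z
    constructor
    · rintro ⟨h1, h2⟩
      exact ⟨h1, fun q hq => h2 (q, π g q) ⟨q, hq, rfl⟩⟩
    · rintro ⟨h1, h2⟩
      refine ⟨h1, ?_⟩
      rintro _ ⟨q, hq, rfl⟩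
      exact h2 q hq
  refine Set.mem_iUnion.2 ⟨⟨p, by rw [hGp]; exact hle⟩, ?_⟩
  exact ⟨hg, by rintro _ ⟨q, _, rfl⟩; rfl⟩

/-- Pigeonhole: a map from more than `κ` points to at most `κ` colours is constant on more than
`κ` points. -/
theorem exists_colour {κ : Cardinal.{u}} (hκ : ℵ₀ ≤ κ) {Z E : Type u} (hZ : κ < #Z)
    (hE : #E ≤ κ) (f : Z → E) : ∃ e, κ < #{z | f z = e} := by
  by_contra hcon
  push Not at hcon
  have h1 : (Set.univ : Set Z) = ⋃ e, {z | f z = e} := by
    ext z
    simp
  have h2 : #Z ≤ κ := by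
    rw [← mk_univ, h1]
    refine (mk_iUnion_le _).trans ?_
    exact (mul_le_mul' hE (ciSup_le' hcon)).trans (mul_eq_self hκ).le
  exact absurd h2 (not_le.2 hZ)

/-- **Canonization.**  If `κ` is `ℵ₀` or measurable then every colouring of `κ × κ × Z`,
`|Z| > κ`, with fewer than `κ` colours, is canonical on a box with sides of size `κ`. -/
theorem canonical {κ : Cardinal.{u}} (hκ : ℵ₀ ≤ κ) {A : Type u} (hA : #A = κ)
    (U : Ultrafilter A) [hI : CardinalInterFilter (U : Filter A) κ]
    (hU : (U : Filter A) ≤ cofinite) {Z D : Type u} (hZ : κ < #Z) (hD : #D < κ)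
    (c : A → A → Z → D) :
    ∃ (x y : κ.ord.ToType → A) (z : κ.ord.ToType → Z) (i j : D),
      Function.Injective x ∧ Function.Injective y ∧ Function.Injective z ∧
      ∀ s t r, (s ≤ t → c (x s) (y t) (z r) = i) ∧ (t < s → c (x s) (y t) (z r) = j) := by
  classical
  have hreg := regular U hU hκ hA
  have hsl := strongLimit U hU hκ hA
  -- iterated limits
  have hi0 : ∀ z x, ∃ d, ∀ᶠ y in (U : Filter A), c x y z = d := fun z x =>
    decide_colour U hD (fun y => c x y z)
  choose li hli using hi0
  have hi1 : ∀ z, ∃ d, ∀ᶠ x in (U : Filter A), li z x = d := fun z =>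
    decide_colour U hD (li z)
  choose ii hii using hi1
  have hj0 : ∀ z y, ∃ d, ∀ᶠ x in (U : Filter A), c x y z = d := fun z y =>
    decide_colour U hD (fun x => c x y z)
  choose lj hlj using hj0
  have hj1 : ∀ z, ∃ d, ∀ᶠ y in (U : Filter A), lj z y = d := fun z =>
    decide_colour U hD (lj z)
  choose jj hjj using hj1
  obtain ⟨⟨i, j⟩, hΓ⟩ := exists_colour hκ hZ (E := D × D)
    (by
      rw [← Cardinal.mul_def]
      exact (mul_lt_of_lt hκ hD hD).le) (fun z => (ii z, jj z))
  set Γ : Set Z := {z | (ii z, jj z) = (i, j)} with hΓdef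
  -- the profile functions
  let π : Z → (A × A) → (ULift.{u} Prop × ULift.{u} Prop × D) := fun z q =>
    (ULift.up (li z q.1 = i), ULift.up (lj z q.2 = j), c q.1 q.2 z)
  have hne : Nonempty A := by
    rw [← mk_ne_zero_iff, hA]
    exact (aleph0_pos.trans_le hκ).ne'
  have hZne : Nonempty Z := by
    rw [← mk_ne_zero_iff]
    exact (hκ.trans_lt hZ |>.trans_le' aleph0_pos.le).ne'
  have hDne : Nonempty D := ⟨c (Classical.arbitrary A) (Classical.arbitrary A)
    (Classical.arbitrary Z)⟩
  have hP : #(ULift.{u} Prop) = 2 := by simp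
  have hQ : #((A × A) × (ULift.{u} Prop × ULift.{u} Prop × D)) = κ := by
    simp only [mk_prod, lift_id, hA, hP]
    rw [mul_eq_self hκ]
    have h2 : (2 : Cardinal.{u}) < κ := (natCast_lt_aleph0 (n := 2)).trans_le hκ
    have h3 : (2 : Cardinal.{u}) * (2 * #D) ≤ κ :=
      (mul_lt_of_lt hκ h2 (mul_lt_of_lt hκ h2 hD)).le
    refine mul_eq_left hκ h3 ?_
    have : #D ≠ 0 := mk_ne_zero D
    simp [this]
  obtain ⟨g, hg, hgood⟩ := exists_nonbad hκ hreg hsl hQ π Γ hΓ
  -- the recursion
  let T := A × A × Z
  -- condition at a triple of indices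
  let C : (κ.ord.ToType → T) → κ.ord.ToType → κ.ord.ToType → Z → Prop := fun f s t z =>
    li z (f s).1 = i ∧ lj z (f t).2.1 = j ∧
      (s ≤ t → c (f s).1 (f t).2.1 z = i) ∧ (t < s → c (f s).1 (f t).2.1 z = j)
  let J : (κ.ord.ToType → T) → κ.ord.ToType → Prop := fun f w =>
    ((f w).2.2 ∈ Γ) ∧
    (∀ v, v < w → (f v).1 ≠ (f w).1 ∧ (f v).2.1 ≠ (f w).2.1 ∧ (f v).2.2 ≠ (f w).2.2) ∧
    ∀ s t, s ≤ w → t ≤ w → C f s t g ∧ ∀ r, r ≤ w → C f s t (f r).2.2
  have hTne : Nonempty T := inferInstance
  obtain ⟨f, hf⟩ : ∃ f, ∀ w, J f w := by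
    apply exists_seq
    · intro f f' w hff hJ
      refine ⟨?_, ?_, ?_⟩
      · have := hJ.1
        rw [hff w le_rfl] at this
        exact this
      · intro v hv
        have := hJ.2.1 v hv
        rw [hff v hv.le, hff w le_rfl] at this
        exact this
      · intro s t hs ht
        have := hJ.2.2 s t hs ht
        simp only [C] at this ⊢
        rw [hff s hs, hff t ht] at this
        refine ⟨this.1, ?_⟩
        intro r hr
        have h2 := this.2 r hr
        rw [hff r hr] at h2
        exact h2
    · intro w f hJ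
      -- everything below `w` is fine
      let nz : Option (Set.Iio w) → Z := fun o => o.elim g (fun r => (f r).2.2)
      have hnΓ : ∀ o, nz o ∈ Γ := by
        rintro (_ | ⟨r, hr⟩)
        · exact hg
        · exact (hJ r hr).1
      have hni : ∀ o, ii (nz o) = i := fun o => congrArg Prod.fst (hnΓ o)
      have hnj : ∀ o, jj (nz o) = j := fun o => congrArg Prod.snd (hnΓ o)
      have hC : ∀ o s t, s < w → t < w → C f s t (nz o) := by
        rintro (_ | ⟨r, hr⟩) s t hs ht
        · rcases le_total s t with h | h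
          · exact ((hJ t ht).2.2 s t h le_rfl).1
          · exact ((hJ s hs).2.2 s t le_rfl h).1
        · have hm : max (max s t) r < w := max_lt (max_lt hs ht) hr
          exact ((hJ _ hm).2.2 s t ((le_max_left _ _).trans (le_max_left _ _))
            ((le_max_right _ _).trans (le_max_left _ _))).2 r (le_max_right _ _)
      have hsm : #(Set.Iio w) < κ := Cardinal.mk_Iio_toType_ord_lt w
      have hsmo : #(Option (Set.Iio w)) < κ := by
        rw [mk_option]
        exact Cardinal.add_lt_of_lt hκ hsm (one_lt_aleph0.trans_le hκ)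
      have hnp : ∀ a : A, ∀ᶠ x in (U : Filter A), a ≠ x := by
        intro a
        apply hU
        rw [mem_cofinite]
        refine (Set.finite_singleton a).subset ?_
        intro x hx
        have : ¬ (a ≠ x) := hx
        push Not at this
        exact this.symm
      -- choice of `x`
      have hx : ∀ᶠ x in (U : Filter A), (∀ o, li (nz o) x = i) ∧
          (∀ o, ∀ v : Set.Iio w, c x (f v).2.1 (nz o) = j) ∧ (∀ v : Set.Iio w, (f v).1 ≠ x) := by
        refine (Eventually.and ?_ (Eventually.and ?_ ?_))
        · refine (eventually_cardinal_forall hsmo).2 (fun o => ?_)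
          filter_upwards [hii (nz o)] with x hx
          rw [hx, hni]
        · refine (eventually_cardinal_forall hsmo).2 (fun o => ?_)
          refine (eventually_cardinal_forall hsm).2 (fun v => ?_)
          filter_upwards [hlj (nz o) (f v).2.1] with x hx
          rw [hx]
          exact (hC o v v v.2 v.2).2.1
        · exact (eventually_cardinal_forall hsm).2 (fun v => hnp _)
      obtain ⟨x, hx1, hx2, hx3⟩ := hx.exists
      -- choice of `y`
      have hy : ∀ᶠ y in (U : Filter A), (∀ o, lj (nz o) y = j) ∧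
          (∀ o, ∀ v : Set.Iio w, c (f v).1 y (nz o) = i) ∧ (∀ o, c x y (nz o) = i) ∧
          (∀ v : Set.Iio w, (f v).2.1 ≠ y) := by
        refine (Eventually.and ?_ (Eventually.and ?_ (Eventually.and ?_ ?_)))
        · refine (eventually_cardinal_forall hsmo).2 (fun o => ?_)
          filter_upwards [hjj (nz o)] with y hy
          rw [hy, hnj]
        · refine (eventually_cardinal_forall hsmo).2 (fun o => ?_)
          refine (eventually_cardinal_forall hsm).2 (fun v => ?_)
          filter_upwards [hli (nz o) (f v).1] with y hy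
          rw [hy]
          exact (hC o v v v.2 v.2).1
        · refine (eventually_cardinal_forall hsmo).2 (fun o => ?_)
          filter_upwards [hli (nz o) x] with y hy
          rw [hy, hx1]
        · exact (eventually_cardinal_forall hsm).2 (fun v => hnp _)
      obtain ⟨y, hy1, hy2, hy3, hy4⟩ := hy.exists
      -- choice of `z`
      let xs : Option (Set.Iio w) → A := fun o => o.elim x (fun r => (f r).1)
      let ys : Option (Set.Iio w) → A := fun o => o.elim y (fun r => (f r).2.1)
      let S : Set (A × A) := Set.range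
        (fun p : Option (Set.Iio w) × Option (Set.Iio w) => (xs p.1, ys p.2))
      have hS : #S < κ := by
        refine mk_range_le.trans_lt ?_
        rw [← Cardinal.mul_def]
        exact mul_lt_of_lt hκ hsmo hsmo
      have hbig := hgood S hS
      obtain ⟨z, hz, hzr⟩ : ∃ z ∈ {z | z ∈ Γ ∧ ∀ q ∈ S, π z q = π g q},
          z ∉ Set.range (fun r : Set.Iio w => (f r).2.2) := by
        by_contra hcon
        push Not at hcon
        have h1 : {z | z ∈ Γ ∧ ∀ q ∈ S, π z q = π g q} ⊆
          Set.range (fun r : Set.Iio w => (f r).2.2) := hcon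
        have h2 := (mk_le_mk_of_subset h1).trans mk_range_le
        exact absurd (hbig.trans_le h2) (not_lt.2 hsm.le)
      obtain ⟨hzΓ, hzS⟩ := hz
      refine ⟨(x, y, z), ?_⟩
      have hup : ∀ v, v < w → Function.update f w (x, y, z) v = f v := fun v hv =>
        Function.update_of_ne hv.ne _ _
      have huw : Function.update f w (x, y, z) w = (x, y, z) := Function.update_self _ _ _
      set f' := Function.update f w (x, y, z) with hf'
      have hK : ∀ o s t, s ≤ w → t ≤ w → C f' s t (nz o) := by
        intro o s t hs ht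
        rcases lt_or_eq_of_le hs with hs | rfl
        · rcases lt_or_eq_of_le ht with ht | rfl
          · have := hC o s t hs ht
            simp only [C] at this ⊢
            rw [hup s hs, hup t ht]
            exact this
          · simp only [C]
            rw [hup s hs, huw]
            refine ⟨(hC o s s hs hs).1, hy1 o, fun _ => hy2 o ⟨s, hs⟩, fun h => ?_⟩
            exact absurd h (lt_asymm hs)
        · rcases lt_or_eq_of_le ht with ht | ht
          · simp only [C]
            rw [hup t ht, huw]
            refine ⟨hx1 o, (hC o t t ht ht).2.1, fun h => ?_, fun _ => hx2 o ⟨t, ht⟩⟩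
            exact absurd h (not_le.2 ht)
          · simp only [C]
            rw [ht, huw]
            exact ⟨hx1 o, hy1 o, fun _ => hy3 o, fun h => absurd h (lt_irrefl _)⟩
      have hx' : ∀ s, s ≤ w → ∃ o, (f' s).1 = xs o := by
        intro s hs
        rcases lt_or_eq_of_le hs with hs | rfl
        · exact ⟨some ⟨s, hs⟩, by rw [hup s hs]; rfl⟩
        · exact ⟨none, by rw [huw]; rfl⟩
      have hy' : ∀ s, s ≤ w → ∃ o, (f' s).2.1 = ys o := by
        intro s hs
        rcases lt_or_eq_of_le hs with hs | rfl
        · exact ⟨some ⟨s, hs⟩, by rw [hup s hs]; rfl⟩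
        · exact ⟨none, by rw [huw]; rfl⟩
      have hKz : ∀ s t, s ≤ w → t ≤ w → C f' s t z := by
        intro s t hs ht
        obtain ⟨o1, ho1⟩ := hx' s hs
        obtain ⟨o2, ho2⟩ := hy' t ht
        have h1 := hzS ((f' s).1, (f' t).2.1) ⟨(o1, o2), by rw [ho1, ho2]⟩
        have h2 := hK none s t hs ht
        have h3 : nz none = g := rfl
        rw [h3] at h2
        simp only [π, Prod.mk.injEq, ULift.up.injEq] at h1
        simp only [C] at h2 ⊢
        obtain ⟨ha, hb, hc⟩ := h1
        rw [hc]
        exact ⟨ha.mpr h2.1, hb.mpr h2.2.1, h2.2.2.1, h2.2.2.2⟩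
      refine ⟨?_, ?_, ?_⟩
      · rw [huw]
        exact hzΓ
      · intro v hv
        rw [hup v hv, huw]
        exact ⟨hx3 ⟨v, hv⟩, hy4 ⟨v, hv⟩, fun h => hzr ⟨⟨v, hv⟩, h⟩⟩
      · intro s t hs ht
        refine ⟨hK none s t hs ht, ?_⟩
        intro r hr
        rcases lt_or_eq_of_le hr with hr | rfl
        · have := hK (some ⟨r, hr⟩) s t hs ht
          rw [hup r hr]
          exact this
        · rw [huw]
          exact hKz s t hs ht
  refine ⟨fun w => (f w).1, fun w => (f w).2.1, fun w => (f w).2.2, i, j, ?_, ?_, ?_, ?_⟩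
  · intro a b hab
    by_contra hne
    rcases lt_or_gt_of_ne hne with h | h
    · exact ((hf b).2.1 a h).1 hab
    · exact ((hf a).2.1 b h).1 hab.symm
  · intro a b hab
    by_contra hne
    rcases lt_or_gt_of_ne hne with h | h
    · exact ((hf b).2.1 a h).2.1 hab
    · exact ((hf a).2.1 b h).2.1 hab.symm
  · intro a b hab
    by_contra hne
    rcases lt_or_gt_of_ne hne with h | h
    · exact ((hf b).2.1 a h).2.2 hab
    · exact ((hf a).2.1 b h).2.2 hab.symm
  · intro s t r
    have := ((hf (max (max s t) r)).2.2 s t ((le_max_left _ _).trans (le_max_left _ _))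
      ((le_max_right _ _).trans (le_max_left _ _))).2 r (le_max_right _ _)
    exact this.2.2

end Pool.Agent.Y561.PB
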